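import Mathlib

namespace Pool.Agent.H.MP_5a0ad8_an

open MeasureTheory Set

/-- Lebesgue measure on the unit interval -/
noncomputable abbrev mu : Measure ℝ := volume.restrict (Icc 0 1)

instance : IsProbabilityMeasure mu := ⟨by simp⟩

/-- the kernel -/
noncomputable def kk (y u : ℝ) : ℝ := Int.fract (u / y) / (u / y)

theorem kk_le {y u : ℝ} (hy : 0 ≤ y) (hu : 0 ≤ u) : ‖(kk y u : ℂ)‖ ≤ 1 := by
  have h := div_nonneg hu hy
  rw [Complex.norm_real, kk, Real.norm_of_nonneg (div_nonneg (Int.fract_nonneg _) h)]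
  refine div_le_one_of_le₀ ?_ h
  rw [Int.fract]
  have : (0 : ℝ) ≤ ⌊u / y⌋ := by exact_mod_cast Int.floor_nonneg.mpr h
  linarith

theorem kk_meas : Measurable fun p : ℝ × ℝ => (kk p.1 p.2 : ℂ) :=
  Complex.measurable_ofReal.comp
    ((measurable_snd.div measurable_fst).fract.div (measurable_snd.div measurable_fst))

theorem ae_mem : ∀ᵐ x ∂mu, x ∈ Icc (0 : ℝ) 1 := ae_restrict_mem measurableSet_Icc

theorem kk_int {y : ℝ} (hy : 0 ≤ y) (h : Lp ℂ 2 mu) :
    Integrable (fun u => (kk y u : ℂ) * h u) mu :=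
  ((Lp.memLp h).integrable one_le_two).bdd_mul (c := 1)
    (kk_meas.comp measurable_prodMk_left).aestronglyMeasurable
    (ae_mem.mono fun _ hu => kk_le hy hu.1)

theorem kk_bd (h : Lp ℂ 2 mu) : ∀ᵐ y ∂mu, ‖∫ u, (kk y u : ℂ) * h u ∂mu‖ ≤ ‖h‖ := by
  filter_upwards [ae_mem] with y hy
  refine (norm_integral_le_of_norm_le ((Lp.memLp h).integrable one_le_two).norm
    (ae_mem.mono fun u hu => ?_)).trans ?_
  · rw [norm_mul]
    exact mul_le_of_le_one_left (norm_nonneg _) (kk_le hy.1 hu.1)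
  · rw [integral_norm_eq_lintegral_enorm (Lp.aestronglyMeasurable h),
      ← eLpNorm_one_eq_lintegral_enorm, Lp.norm_def]
    exact ENNReal.toReal_mono (Lp.eLpNorm_ne_top h)
      (eLpNorm_le_eLpNorm_of_exponent_le one_le_two (Lp.aestronglyMeasurable h))

theorem kk_mem (h : Lp ℂ 2 mu) : MemLp (fun y => ∫ u, (kk y u : ℂ) * h u ∂mu) 2 mu :=
  .of_bound (kk_meas.aestronglyMeasurable.mul
    (Lp.aestronglyMeasurable h).comp_snd).integral_prod_right' _ (kk_bd h)

theorem exists_T : ∃ T : Lp ℂ 2 mu →L[ℂ] Lp ℂ 2 mu,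
    ∀ h, ∀ᵐ y ∂mu, T h y = ∫ u, (kk y u : ℂ) * h u ∂mu := by
  refine ⟨LinearMap.mkContinuous
    { toFun h := (kk_mem h).toLp _
      map_add' h h' := ?_
      map_smul' c h := ?_ } 1 fun h => ?_, fun h => (kk_mem h).coeFn_toLp⟩
  · rw [← MemLp.toLp_add]
    refine MemLp.toLp_congr _ _ (ae_mem.mono fun y hy => ?_)
    rw [Pi.add_apply, ← integral_add (kk_int hy.1 h) (kk_int hy.1 h')]
    exact integral_congr_ae ((Lp.coeFn_add h h').mono fun u hu => by simp only [hu]; simp [mul_add])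
  · rw [RingHom.id_apply, ← MemLp.toLp_const_smul]
    refine MemLp.toLp_congr _ _ (.of_forall fun y => ?_)
    rw [Pi.smul_apply, smul_eq_mul, ← integral_const_mul]
    exact integral_congr_ae ((Lp.coeFn_smul c h).mono fun u hu => by
      simp only [hu]; simp [mul_left_comm])
  · refine (Lp.norm_le_of_ae_bound (norm_nonneg h) ?_).trans (by simp [measureUnivNNReal])
    filter_upwards [(kk_mem h).coeFn_toLp, kk_bd h] with y h1 h2
    exact h1 ▸ h2

theorem normsq (f : Lp ℂ 2 mu) : ‖f‖ ^ 2 = ∫ x, ‖f x‖ ^ 2 ∂mu := by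
  have := L2.inner_def (𝕜 := ℂ) f f
  simp only [inner_self_eq_norm_sq_to_K] at this
  exact_mod_cast this

theorem sq_int (f : Lp ℂ 2 mu) : Integrable (fun x => ‖f x‖ ^ 2) mu :=
  (Lp.memLp f).integrable_norm_pow two_ne_zero

/-- indicator of an interval -/
noncomputable def ind (a b u : ℝ) : ℝ := (Ico a b).indicator 1 u

theorem ind_int (a b : ℝ) : Integrable (ind a b) mu :=
  (integrable_const 1).indicator measurableSet_Ico

theorem ind_val {a b : ℝ} (ha : 0 ≤ a) (hab : a ≤ b) (hb : b ≤ 1) : ∫ u, ind a b u ∂mu = b - a := by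
  unfold ind
  rw [integral_indicator_one measurableSet_Ico, measureReal_def,
    Measure.restrict_apply measurableSet_Ico,
    inter_eq_left.mpr (Ico_subset_Icc_self.trans (Icc_subset_Icc ha hb))]
  simp [hab]

theorem ind_of {a b u : ℝ} (h : a ≤ u) (h' : u < b) : ind a b u = 1 :=
  indicator_of_mem (show u ∈ Ico a b from ⟨h, h'⟩) _

theorem ind_not {a b u : ℝ} (h : u < a ∨ b ≤ u) : ind a b u = 0 :=
  indicator_of_notMem (fun e => h.elim e.1.not_gt e.2.not_ge) _

theorem kk_ind {y a b : ℝ} (hy : 1 / 2 < y) (ha : 0 < a) (hb : b ≤ 1) (h : b ≤ y ∨ y ≤ a) (u : ℝ) :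
    kk y u * (u * ind a b u) = u * ind a b u - y * ((if y ≤ a then 1 else 0) * ind a b u) := by
  by_cases hu : a ≤ u ∧ u < b
  · have hu0 : 0 < u := ha.trans_le hu.1
    have hy0 : 0 < y := by linarith
    rw [ind_of hu.1 hu.2, kk]
    split_ifs with e
    · rw [Int.fract, Int.floor_eq_iff.mpr ⟨by rw [le_div_iff₀ hy0]; push_cast; linarith,
        show u / y < (1 : ℤ) + 1 by rw [div_lt_iff₀ hy0]; push_cast; linarith⟩]
      field_simp
      simp
    · rw [Int.fract_eq_self.mpr ⟨by positivity, by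
        rw [div_lt_one hy0]; exact hu.2.trans_le (h.resolve_right e)⟩, div_self (by positivity)]
      simp
  · rw [ind_not (by rwa [not_and_or, not_le, not_lt] at hu)]
    simp

theorem lower (T F : Lp ℂ 2 mu →L[ℂ] Lp ℂ 2 mu)
    (hT : ∀ h, ∀ᵐ y ∂mu, T h y = ∫ u, (kk y u : ℂ) * h u ∂mu) (n : ℕ)
    (hF : LinearMap.rank (F : Lp ℂ 2 mu →ₗ[ℂ] Lp ℂ 2 mu) ≤ n) : 1 / (24 * (n + 2)) ≤ ‖T - F‖ := by
  obtain ⟨l, hl⟩ : ∃ l : ℝ, l = 1 / (6 * (n + 2)) := ⟨_, rfl⟩
  have l0 : 0 < l := by rw [hl]; positivity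
  obtain ⟨P, hP⟩ : ∃ P : Fin (n + 2) → ℝ, ∀ j, P j = 1 / 2 + 3 * (j : ℕ) * l := ⟨_, fun _ => rfl⟩
  have P0 : ∀ j, 1 / 2 ≤ P j := fun j => by rw [hP]; have : 0 ≤ 3 * ((j : ℕ) : ℝ) * l := by positivity
                                            linarith
  have P1 : ∀ j, P j + 3 * l ≤ 1 := fun j => by
    have h1 : ((j : ℕ) : ℝ) + 1 ≤ n + 2 := by exact_mod_cast j.2
    have h2 : 6 * (n + 2) * l = 1 := by rw [hl]; field_simp
    rw [hP]; nlinarith
  have P2 : ∀ j k, j ≠ k → P j + 3 * l ≤ P k ∨ P k + 3 * l ≤ P j := fun j k h => by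
    have e : ∀ {j k : Fin (n + 2)}, j < k → P j + 3 * l ≤ P k := fun {j k} h => by
      have h1 : ((j : ℕ) : ℝ) + 1 ≤ (k : ℕ) := by exact_mod_cast h
      rw [hP, hP]; nlinarith
    exact h.lt_or_gt.imp e e
  let s : Fin (n + 2) → ℝ → ℝ := fun j u =>
    u * ind (P j) (P j + l) u - u * ind (P j + 2 * l) (P j + 3 * l) u
  have s1 : ∀ j, ∀ u ∈ Icc (0 : ℝ) 1, |s j u| ≤ ind (P j) (P j + 3 * l) u := by
    intro j u hu
    simp only [s, ind, indicator, mem_Ico, Pi.one_apply, abs_le]
    obtain ⟨h1, h2⟩ := hu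
    split_ifs <;> grind
  have i1 : ∀ a b u, ind a b u ≤ 1 := fun a b u => by
    simp only [ind, indicator, Pi.one_apply]; split_ifs <;> simp
  have sm : ∀ j, MemLp (fun u => (s j u : ℂ)) 2 mu := fun j => by
    refine .of_bound (Complex.measurable_ofReal.comp ?_).aestronglyMeasurable 1
      (ae_mem.mono fun u hu => by simpa using (s1 j u hu).trans (i1 _ _ _))
    exact (measurable_id.mul (measurable_one.indicator measurableSet_Ico)).sub
      (measurable_id.mul (measurable_one.indicator measurableSet_Ico))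
  have si : ∀ j, Integrable (s j) mu := fun j => ((sm j).integrable one_le_two).re
  let Φ := Fintype.linearCombination ℂ fun j => (sm j).toLp _
  have hΦ : ∀ a, Φ a =ᵐ[mu] fun u => ∑ j, a j * s j u := fun a => by
    filter_upwards [Lp.coeFn_fun_finsetSum Finset.univ fun j => a j • (sm j).toLp _,
      ae_all_iff.mpr fun j => Lp.coeFn_smul (a j) ((sm j).toLp _),
      ae_all_iff.mpr fun j => (sm j).coeFn_toLp] with u h1 h2 h3
    rw [Fintype.linearCombination_apply, h1]
    simp [h2, h3]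
  have : FiniteDimensional ℂ (LinearMap.range (F : Lp ℂ 2 mu →ₗ[ℂ] Lp ℂ 2 mu)) :=
    Module.rank_lt_aleph0_iff.mp (hF.trans_lt Cardinal.natCast_lt_aleph0)
  obtain ⟨a, ha, a0⟩ := (Submodule.ne_bot_iff _).mp (LinearMap.ker_ne_bot_of_finrank_lt
    (f := ((F : Lp ℂ 2 mu →ₗ[ℂ] Lp ℂ 2 mu).rangeRestrict ∘ₗ Φ).prod
      (Fintype.linearCombination ℂ fun j => ((∫ u, s j u ∂mu : ℝ) : ℂ))) (by
      have := Module.finrank_le_of_rank_le hF
      simp only [Module.finrank_prod, Module.finrank_self, Module.finrank_fin_fun]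
      omega))
  obtain ⟨h1, h2⟩ := Prod.ext_iff.mp (LinearMap.mem_ker.mp ha)
  have h1' : F (Φ a) = 0 := congrArg Subtype.val h1
  have h2' : ∑ j, a j * ((∫ u, s j u ∂mu : ℝ) : ℂ) = 0 := h2
  obtain ⟨N, hN⟩ : ∃ N, N = ∑ j, ‖a j‖ ^ 2 := ⟨_, rfl⟩
  have N0 : 0 < N := by
    obtain ⟨j, hj⟩ := Function.ne_iff.mp a0
    exact hN ▸ Finset.sum_pos' (fun _ _ => by positivity) ⟨j, Finset.mem_univ _, by positivity⟩
  have up : ‖Φ a‖ ^ 2 ≤ N * (3 * l) := by
    have : ∫ u, ∑ j, ‖a j‖ ^ 2 * ind (P j) (P j + 3 * l) u ∂mu = N * (3 * l) := by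
      rw [integral_finsetSum _ fun j _ => (ind_int _ _).const_mul _, hN, Finset.sum_mul]
      refine Finset.sum_congr rfl fun j _ => ?_
      rw [integral_const_mul, ind_val (by linarith [P0 j]) (by linarith) (P1 j)]; ring
    rw [normsq, ← this]
    refine integral_mono_ae (sq_int _) (integrable_finsetSum _ fun j _ => (ind_int _ _).const_mul _) ?_
    filter_upwards [hΦ a, ae_mem] with u e hu
    rw [e]
    by_cases h : ∃ k, P k ≤ u ∧ u < P k + 3 * l
    · obtain ⟨k, k1, k2⟩ := h
      have z : ∀ j, j ≠ k → ind (P j) (P j + 3 * l) u = 0 := fun j hj =>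
        ind_not (by rcases P2 j k hj with h | h; exacts [.inr (by linarith), .inl (by linarith)])
      rw [Finset.sum_eq_single k (fun j _ hj => by
        rw [abs_nonpos_iff.mp ((s1 j u hu).trans (z j hj).le)]; simp) (by simp),
        Finset.sum_eq_single k (fun j _ hj => by rw [z j hj, mul_zero]) (by simp), ind_of k1 k2,
        norm_mul, mul_pow, Complex.norm_real, Real.norm_eq_abs]
      exact mul_le_mul_of_nonneg_left (pow_le_one₀ (abs_nonneg _) ((s1 k u hu).trans (i1 _ _ _)))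
        (by positivity)
    · have z : ∀ j, ind (P j) (P j + 3 * l) u = 0 := fun j =>
        ind_not (by by_contra e; push Not at e; exact h ⟨j, e⟩)
      simp [z, fun j => abs_nonpos_iff.mp ((s1 j u hu).trans (z j).le)]
  have val : ∀ k y, P k + l ≤ y → y < P k + 2 * l →
      ∫ u, (kk y u : ℂ) * Φ a u ∂mu = a k * (y * l : ℝ) := by
    intro k y k1 k2
    have hy : 1 / 2 < y := by linarith [P0 k]
    have e : ∀ j, (fun u => kk y u * s j u) = fun u => s j u - y *
        ((if y ≤ P j then 1 else 0) * ind (P j) (P j + l) u -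
          (if y ≤ P j + 2 * l then 1 else 0) * ind (P j + 2 * l) (P j + 3 * l) u) := by
      intro j
      have c : P j + 3 * l ≤ P k ∨ P k + 3 * l ≤ P j ∨ j = k := by
        by_cases h : j = k
        · exact .inr (.inr h)
        · exact (P2 j k h).imp_right .inl
      ext u
      simp only [s, mul_sub]
      rw [kk_ind hy (by linarith [P0 j]) (by linarith [P1 j]) (by grind),
        kk_ind hy (by linarith [P0 j]) (P1 j) (by grind)]
      ring
    have e1 : ∀ j, Integrable (fun u => kk y u * s j u) mu := fun j => by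
      rw [e]
      exact (si j).sub ((((ind_int _ _).const_mul _).sub ((ind_int _ _).const_mul _)).const_mul _)
    have e2 : ∀ j, ∫ u, kk y u * s j u ∂mu = ∫ u, s j u ∂mu + if j = k then y * l else 0 := by
      intro j
      have ii : ∀ c c' a b a' b' : ℝ, Integrable (fun u => c * ind a b u - c' * ind a' b' u) mu :=
        fun _ _ _ _ _ _ => ((ind_int _ _).const_mul _).sub ((ind_int _ _).const_mul _)
      rw [e, integral_sub (si j) ((ii _ _ _ _ _ _).const_mul _),
        integral_const_mul, integral_sub ((ind_int _ _).const_mul _) ((ind_int _ _).const_mul _),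
        integral_const_mul, integral_const_mul,
        ind_val (by linarith [P0 j]) (by linarith) (by linarith [P1 j]),
        ind_val (by linarith [P0 j]) (by linarith) (P1 j)]
      by_cases h : j = k
      · subst h
        rw [if_neg (by linarith), if_pos k2.le, if_pos rfl]; ring
      · rw [if_neg h]
        rcases P2 j k h with h | h
        · rw [if_neg (by linarith), if_neg (by linarith)]; ring
        · rw [if_pos (by linarith), if_pos (by linarith)]; ring
    rw [integral_congr_ae (g := fun u => ∑ j, a j * (kk y u * s j u : ℝ)) ((hΦ a).mono fun u hu => by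
      simp only [hu, Finset.mul_sum, Complex.ofReal_mul, mul_left_comm]),
      integral_finsetSum _ fun j _ => (e1 j).ofReal.const_mul _]
    simp only [integral_const_mul, integral_complex_ofReal, e2, Complex.ofReal_add, mul_add,
      Finset.sum_add_distrib, h2', zero_add]
    rw [Finset.sum_eq_single k (fun j _ hj => by simp [hj]) (by simp), if_pos rfl]
  have low : N * (l ^ 2 / 4 * l) ≤ ‖T (Φ a)‖ ^ 2 := by
    have : ∫ u, ∑ j, ‖a j‖ ^ 2 * (l ^ 2 / 4) * ind (P j + l) (P j + 2 * l) u ∂mu =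
        N * (l ^ 2 / 4 * l) := by
      rw [integral_finsetSum _ fun j _ => (ind_int _ _).const_mul _, hN, Finset.sum_mul]
      refine Finset.sum_congr rfl fun j _ => ?_
      rw [integral_const_mul, ind_val (by linarith [P0 j]) (by linarith) (by linarith [P1 j])]; ring
    rw [normsq, ← this]
    refine integral_mono_ae (integrable_finsetSum _ fun j _ => (ind_int _ _).const_mul _) (sq_int _) ?_
    filter_upwards [hT (Φ a)] with y e
    by_cases h : ∃ k, P k + l ≤ y ∧ y < P k + 2 * l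
    · obtain ⟨k, k1, k2⟩ := h
      rw [e, val k y k1 k2, Finset.sum_eq_single k (fun j _ hj => by
        rw [ind_not (by rcases P2 j k hj with h | h; exacts [.inr (by linarith), .inl (by linarith)]),
          mul_zero]) (by simp), ind_of k1 k2, mul_one, norm_mul, mul_pow, Complex.norm_real,
        Real.norm_eq_abs, sq_abs, mul_pow]
      refine mul_le_mul_of_nonneg_left ?_ (by positivity)
      have : 1 / 4 ≤ y ^ 2 := by nlinarith [P0 k]
      nlinarith [sq_nonneg l]
    · have z : ∀ j, ind (P j + l) (P j + 2 * l) y = 0 := fun j =>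
        ind_not (by by_contra e; push Not at e; exact h ⟨j, e⟩)
      simp [z]
  have h3 := (T - F).le_opNorm (Φ a)
  rw [ContinuousLinearMap.sub_apply, h1', sub_zero] at h3
  have h4 := ((low.trans (pow_le_pow_left₀ (norm_nonneg _) h3 2)).trans_eq (mul_pow _ _ _)).trans
    (mul_le_mul_of_nonneg_left up (sq_nonneg _))
  have h5 : (l / 4) ^ 2 ≤ ‖T - F‖ ^ 2 := by
    have := mul_pos N0 l0
    by_contra h
    nlinarith [sq_nonneg l]
  have := abs_le_of_sq_le_sq' h5 (norm_nonneg _)
  rw [show (1 : ℝ) / (24 * (n + 2)) = l / 4 by rw [hl]; field_simp; norm_num]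
  exact this.2

end Pool.Agent.H.MP_5a0ad8_an
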